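import Pool.Agent.R482.ST.Star

/-!
# Admissible numbers near starshaped functions, in the form with a property
-/

set_option autoImplicit false

namespace Run7.h95.FAM

open Finset
open Pool.Agent.R482.ST (Starshaped Conv win_nat)

/-- admissible positive integers are good if they are near `f n x`; the count of `good_nat` (AV) and `linear_good_nat` (LF) -/
theorem star_good (Adm Good : ℕ → Prop) {f : ℕ → ℝ → ℝ} {a s τ θ : ℝ} (hf : Starshaped a f) (hτ : 0 ≤ τ)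
    (hv : Conv a f τ) (hs : 0 ≤ s) (hθ : θ < 1)
    (hP : ∀ ε : ℝ, 0 < ε → ∃ C : ℝ, ∀ X : ℕ, 1 ≤ X →
      ({t : ℕ | 1 ≤ t ∧ t ≤ X ∧ Adm t ∧ ¬ Good t}.ncard : ℝ) ≤ C * (X : ℝ) ^ (s + ε)) :
    ∃ E : Set ℝ, dimH E ≤ ENNReal.ofReal ((s + τ) / (1 - θ)) ∧ ∀ x : ℝ, a < x → x ∉ E → ∀ c : ℝ,
      ∃ n₀ : ℕ, ∀ n : ℕ, n₀ ≤ n → ∀ m : ℕ, Adm m → |(m : ℝ) - f n x| ≤ c * (f n x) ^ θ → Good m := by
  classical
  obtain ⟨E, hE, h⟩ := win_nat {t : ℕ | Adm t ∧ ¬ Good t} hf hτ hv hs hθ (by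
    intro ε hε
    obtain ⟨C, hC⟩ := hP ε hε
    refine ⟨C, fun X hX => le_trans (le_of_eq ?_) (hC X hX)⟩
    congr 1
    rw [← Set.ncard_coe_finset]
    congr 1
    ext t
    simp only [coe_filter, mem_Ioc, Set.mem_ofPred_eq]
    constructor
    · rintro ⟨⟨h1, h2⟩, h3, h4⟩
      exact ⟨h1, h2, h3, h4⟩
    · rintro ⟨h1, h2, h3, h4⟩
      exact ⟨⟨h1, h2⟩, h3, h4⟩)
  refine ⟨E, hE, fun x hx hxE c => ?_⟩
  obtain ⟨n₀, hn⟩ := h x hx hxE c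
  refine ⟨n₀, fun n hn1 m hm hw => ?_⟩
  by_contra hcon
  exact (hn n hn1 m hw).2 ⟨hm, hcon⟩

end Run7.h95.FAM
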